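import Pool.Agent.H25.UG.Sig
import Pool.Agent.H33.UG.A1

set_option autoImplicit false

open MvPolynomial

namespace Pool.Agent.H47.UG.FF

variable {K : Type} [Field K] [CharZero K] {n d : ℕ} {F : HP K n} (T : FF d F) (hF : Nice d F)

include hF

theorem σ_bij (hd : 2 ≤ d) (i : Fin (n + 2)) (j : Fin (n + 1)) : Function.Bijective (T.σ i j) :=
  T.σ_bij' i j (T.fd_ne hF hd _) (T.euler hF) (T.chain hF)

end Pool.Agent.H47.UG.FF
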