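import Pool.Agent.H47.UG.Ch

/-!
# The linear change of the jet coordinates on the chart `(i,j)` is bijective
-/

set_option autoImplicit false

open MvPolynomial

namespace Pool.Agent.H47.UG

/-- linear substitution by a matrix -/
noncomputable def linSub {L : Type} [Field L] {n : ℕ} (M : Matrix (Fin n) (Fin n) L) :
    MvPolynomial (ℕ × Fin n) L →ₐ[L] MvPolynomial (ℕ × Fin n) L :=
  aeval fun p : ℕ × Fin n => ∑ l, C (M p.2 l) * X (p.1, l)

theorem linSub_X {L : Type} [Field L] {n : ℕ} (M : Matrix (Fin n) (Fin n) L) (p : ℕ × Fin n) :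
    linSub M (X p) = ∑ l, C (M p.2 l) * X (p.1, l) := aeval_X _ _

theorem linSub_comp {L : Type} [Field L] {n : ℕ} (M N : Matrix (Fin n) (Fin n) L) :
    (linSub M).comp (linSub N) = linSub (N * M) := by
  refine algHom_ext fun p => ?_
  rw [AlgHom.comp_apply, linSub_X, linSub_X, map_sum]
  have h : ∀ l, linSub M (C (N p.2 l) * X (p.1, l)) = ∑ l', C (N p.2 l * M l l') * X (p.1, l') := by
    intro l
    rw [map_mul, linSub_X, ← algebraMap_eq, AlgHom.commutes, Finset.mul_sum]
    refine Finset.sum_congr rfl fun l' _ => ?_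
    rw [algebraMap_eq, ← mul_assoc, ← C_mul]
  rw [Finset.sum_congr rfl fun l _ => h l, Finset.sum_comm]
  refine Finset.sum_congr rfl fun l' _ => ?_
  rw [← Finset.sum_mul, ← map_sum, Matrix.mul_apply]

theorem linSub_one {L : Type} [Field L] {n : ℕ} :
    linSub (1 : Matrix (Fin n) (Fin n) L) = AlgHom.id L _ := by
  refine algHom_ext fun p => ?_
  rw [linSub_X, Finset.sum_eq_single p.2]
  · simp
  · intro b _ hb
    rw [Matrix.one_apply_ne (Ne.symm hb), C_0, zero_mul]
  · intro h
    exact absurd (Finset.mem_univ _) h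

theorem linSub_bij {L : Type} [Field L] {n : ℕ} (M : Matrix (Fin n) (Fin n) L) (hM : IsUnit M) :
    Function.Bijective (linSub M) := by
  obtain ⟨u, rfl⟩ := hM
  have h1 : (linSub (u : Matrix (Fin n) (Fin n) L)).comp (linSub ((u⁻¹ : (Matrix (Fin n) (Fin n) L)ˣ) :
      Matrix (Fin n) (Fin n) L)) = AlgHom.id L _ := by
    rw [linSub_comp, Units.inv_mul, linSub_one]
  have h2 : (linSub ((u⁻¹ : (Matrix (Fin n) (Fin n) L)ˣ) : Matrix (Fin n) (Fin n) L)).comp
      (linSub (u : Matrix (Fin n) (Fin n) L)) = AlgHom.id L _ := by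
    rw [linSub_comp, Units.mul_inv, linSub_one]
  refine ⟨fun a b hab => ?_, fun b => ⟨_, DFunLike.congr_fun h1 b⟩⟩
  have ha := DFunLike.congr_fun h2 a
  have hb := DFunLike.congr_fun h2 b
  rw [AlgHom.comp_apply, AlgHom.id_apply] at ha hb
  rw [← ha, ← hb, hab]

namespace FF

variable {K : Type} [Field K] {n d : ℕ} {F : HP K n} (T : FF d F)

/-- The Jacobian matrix of the chart. -/
noncomputable def jac (i : Fin (n + 2)) (j : Fin (n + 1)) : Matrix (Fin n) (Fin n) T.L :=
  Matrix.of fun l l' => T.par l' (T.y i j l)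

theorem σ_eq (i : Fin (n + 2)) (j : Fin (n + 1)) : T.σ i j = linSub (T.jac i j) := rfl

/-- The Jacobian matrix is invertible. -/
theorem jac_unit (i : Fin (n + 2)) (j : Fin (n + 1)) (hfd : T.fd (i.succAbove j) ≠ 0)
    (euler : ∑ j, T.x j * T.fd j = 0) (chain : ∀ l : Fin n, ∑ j, T.fd j * T.par l (T.x j) = 0) :
    IsUnit (T.jac i j) := by
  rw [← Matrix.mulVec_injective_iff_isUnit]
  refine (injective_iff_map_eq_zero (Matrix.mulVecLin (T.jac i j))).2 fun w hw => ?_
  obtain ⟨Dw, hDw⟩ : ∃ Dw : Derivation K T.L T.L, ∀ v, Dw v = ∑ l, w l * T.par l v :=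
    ⟨∑ l, w l • T.par l, fun v => by
      rw [sum_der]
      rfl⟩
  have h1 : ∑ a, T.fd a * Dw (T.x a) = 0 := by
    have e : ∀ a, T.fd a * Dw (T.x a) = ∑ l, w l * (T.fd a * T.par l (T.x a)) := by
      intro a
      rw [hDw, Finset.mul_sum]
      exact Finset.sum_congr rfl fun l _ => by ring
    rw [Finset.sum_congr rfl fun a _ => e a, Finset.sum_comm]
    refine Finset.sum_eq_zero fun l _ => ?_
    rw [← Finset.mul_sum, chain l, mul_zero]
  have hone : Dw 1 = 0 := Dw.map_one_eq_zero
  have h2 : ∀ a, a ≠ i.succAbove j → Dw (T.x a / T.x i) = 0 := by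
    intro a ha
    by_cases hai : a = i
    · rw [hai, div_self (T.x_ne i), hone]
    · obtain ⟨b, rfl⟩ := Fin.exists_succAbove_eq hai
      have hb : b ≠ j := fun h => ha (by rw [h])
      obtain ⟨l, rfl⟩ := Fin.exists_succAbove_eq hb
      have h := congrFun hw l
      rw [Matrix.mulVecLin_apply] at h
      rw [hDw]
      refine Eq.trans (Finset.sum_congr rfl fun l' _ => ?_) h
      exact mul_comm _ _
  have h3 : ∀ a, Dw (T.x a) = T.x a / T.x i * Dw (T.x i) + T.x i * Dw (T.x a / T.x i) := by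
    intro a
    have e : T.x a = T.x a / T.x i * T.x i := (div_mul_cancel₀ _ (T.x_ne i)).symm
    conv_lhs => rw [e]
    rw [Derivation.leibniz]
    simp only [smul_eq_mul]
  have h4 : Dw (T.x (i.succAbove j) / T.x i) = 0 := by
    have e : ∑ a, T.fd a * Dw (T.x a) = (∑ a, T.x a * T.fd a) * (Dw (T.x i) / T.x i) +
        T.x i * ∑ a, T.fd a * Dw (T.x a / T.x i) := by
      rw [Finset.sum_mul, Finset.mul_sum, ← Finset.sum_add_distrib]
      refine Finset.sum_congr rfl fun a _ => ?_
      rw [h3 a]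
      ring
    rw [h1, euler, zero_mul, zero_add, Finset.sum_eq_single (i.succAbove j)] at e
    · rcases mul_eq_zero.1 e.symm with h | h
      · exact absurd h (T.x_ne i)
      · exact (mul_eq_zero.1 h).resolve_left hfd
    · intro b _ hb
      rw [h2 b hb, mul_zero]
    · intro h
      exact absurd (Finset.mem_univ _) h
  have h5 : ∀ a, Dw (T.x a / T.x i) = 0 := by
    intro a
    by_cases ha : a = i.succAbove j
    · rw [ha, h4]
    · exact h2 a ha
  have h6 : Dw (T.x i) = 0 := by
    have e := h3 0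
    rw [h5 0, mul_zero, add_zero, T.x_zero, hone] at e
    rcases mul_eq_zero.1 e.symm with h | h
    · exact absurd h (div_ne_zero one_ne_zero (T.x_ne i))
    · exact h
  funext l
  have e := h3 l.succ.castSucc
  rw [h5, h6, mul_zero, mul_zero, add_zero, hDw, Finset.sum_eq_single l] at e
  · rw [T.par_x, if_pos rfl, mul_one] at e
    exact e
  · intro b _ hb
    rw [T.par_x, if_neg hb, mul_zero]
  · intro h
    exact absurd (Finset.mem_univ _) h

theorem σ_bij' (i : Fin (n + 2)) (j : Fin (n + 1)) (hfd : T.fd (i.succAbove j) ≠ 0)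
    (euler : ∑ j, T.x j * T.fd j = 0) (chain : ∀ l : Fin n, ∑ j, T.fd j * T.par l (T.x j) = 0) :
    Function.Bijective (T.σ i j) := by
  have h := linSub_bij (T.jac i j) (T.jac_unit i j hfd euler chain)
  rw [← σ_eq] at h
  exact h

end FF

end Pool.Agent.H47.UG
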